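import Pool.Agent.Helper20.EQ.St1

set_option autoImplicit false

open MeasureTheory Set Filter Topology
open scoped ENNReal RealInnerProductSpace

namespace Pool.Agent.Helper91.EQ

open Pool.Agent.Helper20.RG Pool.Agent.Helper20.EQ
open Pool.Agent.Helper68.LM (Pl BB Bd Av HL ft fm DQ)
open Pool.Agent.Helper68.EP (elt GapP)

theorem gmono {φ τ : ℝ → ℝ} (h : Graph φ τ) : Monotone τ := by
  intro t t' htt
  rcases eq_or_lt_of_le htt with h1 | h1
  · rw [h1]
  · have h2 := h.2 t t' htt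
    have h3 : τ t * (t' - t) ≤ τ t' * (t' - t) := h2.1.trans h2.2
    exact le_of_mul_le_mul_right h3 (by linarith)

theorem setT_fin (τ : ℝ → ℝ) (θ : ℝ) (i : ℕ) : volume {t : ℝ | t ∈ Icc (0 : ℝ) 1 ∧
    |τ t - θ| ≤ (2 : ℝ) ^ (-(i : ℤ))} ≠ ⊤ := by
  apply ne_top_of_le_ne_top (b := volume (Icc (0 : ℝ) 1))
  · rw [Real.volume_Icc]; exact ENNReal.ofReal_ne_top
  · exact measure_mono (fun t ht => ht.1)

theorem setS_fin (τ : ℝ → ℝ) (u : ℕ) (θ : ℝ) (i : ℕ) :
    {j : ℕ | j < 2 ^ u ∧ |sl τ u j - θ| ≤ (2 : ℝ) ^ (-(i : ℤ))}.Finite :=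
  (Set.finite_lt_nat (2 ^ u)).subset (fun _ hj => hj.1)

theorem elt_le (τ : ℝ → ℝ) (θ θ' : ℝ) (i i' : ℕ)
    (h : ∀ y : ℝ, |y - θ| ≤ (2 : ℝ) ^ (-(i : ℤ)) → |y - θ'| ≤ (2 : ℝ) ^ (-(i' : ℤ))) :
    elt τ θ i ≤ elt τ θ' i' := by
  unfold elt
  exact ENNReal.toReal_mono (setT_fin τ θ' i') (measure_mono (fun t ht => ⟨ht.1, h _ ht.2⟩))

theorem nn_le (τ : ℝ → ℝ) (u : ℕ) (θ θ' : ℝ) (i i' : ℕ)
    (h : ∀ y : ℝ, |y - θ| ≤ (2 : ℝ) ^ (-(i : ℤ)) → |y - θ'| ≤ (2 : ℝ) ^ (-(i' : ℤ))) :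
    nn τ u θ i ≤ nn τ u θ' i' := by
  unfold nn
  exact Set.ncard_le_ncard (fun j hj => ⟨hj.1, h _ hj.2⟩) (setS_fin τ u θ' i')

theorem two_half (i : ℕ) : (2 : ℝ) ^ (-((i + 1 : ℕ) : ℤ)) + (2 : ℝ) ^ (-((i + 1 : ℕ) : ℤ)) =
    (2 : ℝ) ^ (-(i : ℤ)) := by
  rw [zpow_neg, zpow_natCast, zpow_neg, zpow_natCast, pow_succ]
  field_simp
  norm_num

theorem hCN : StCN := by
  intro φ τ hG u i θ
  have hτ := gmono hG
  have hN : (0 : ℝ) < 2 ^ u := by positivity
  have hstep : ∀ θ' : ℝ, |θ - θ'| ≤ (2 : ℝ) ^ (-((i + 1 : ℕ) : ℤ)) → ∀ y : ℝ,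
      |y - θ| ≤ (2 : ℝ) ^ (-((i + 1 : ℕ) : ℤ)) → |y - θ'| ≤ (2 : ℝ) ^ (-(i : ℤ)) := by
    intro θ' hθ y hy
    rw [← two_half i]
    exact (abs_sub_le y θ θ').trans (add_le_add hy hθ)
  have hself : |θ - θ| ≤ (2 : ℝ) ^ (-((i + 1 : ℕ) : ℤ)) := by
    rw [sub_self, abs_zero]; positivity
  refine ⟨?_, ?_, ENNReal.toReal_nonneg, ?_, elt_le τ θ θ (i + 1) i (hstep θ hself),
    nn_le τ u θ θ (i + 1) i (hstep θ hself), fun θ' hθ' =>
      ⟨elt_le τ θ θ' (i + 1) i (hstep θ' hθ'), nn_le τ u θ θ' (i + 1) i (hstep θ' hθ')⟩⟩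
  · -- the number of points is at most one plus the length
    rcases Set.eq_empty_or_nonempty
      {j : ℕ | j < 2 ^ u ∧ |sl τ u j - θ| ≤ (2 : ℝ) ^ (-(i : ℤ))} with he | hne
    · have h0 : nn τ u θ i = 0 := by unfold nn; rw [he, Set.ncard_empty]
      rw [h0]
      have : 0 ≤ elt τ θ i := ENNReal.toReal_nonneg
      push_cast
      positivity
    · have hfin := setS_fin τ u θ i
      obtain ⟨j1, hj1, hmin⟩ := Set.exists_min_image _ (fun j : ℕ => j) hfin hne
      obtain ⟨j2, hj2, hmax⟩ := Set.exists_max_image _ (fun j : ℕ => j) hfin hne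
      have h12 : j1 ≤ j2 := hmin j2 hj2
      have hcard : nn τ u θ i ≤ j2 + 1 - j1 := by
        unfold nn
        have h1 : {j : ℕ | j < 2 ^ u ∧ |sl τ u j - θ| ≤ (2 : ℝ) ^ (-(i : ℤ))} ⊆
            ((Finset.Icc j1 j2 : Finset ℕ) : Set ℕ) := by
          intro j hj
          rw [Finset.coe_Icc]
          exact ⟨hmin j hj, hmax j hj⟩
        have h2 := Set.ncard_le_ncard h1 (Finset.finite_toSet _)
        rwa [Set.ncard_coe_finset, Nat.card_Icc] at h2
      have hlen : ((j2 : ℝ) - j1) / 2 ^ u ≤ elt τ θ i := by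
        have hsub : Icc (tm u j1) (tm u j2) ⊆ {t : ℝ | t ∈ Icc (0 : ℝ) 1 ∧
            |τ t - θ| ≤ (2 : ℝ) ^ (-(i : ℤ))} := by
          intro t ht
          refine ⟨⟨le_trans ?_ ht.1, ht.2.trans ?_⟩, ?_⟩
          · unfold tm; positivity
          · unfold tm
            rw [div_le_one hN]
            have : (j2 : ℝ) + 1 ≤ 2 ^ u := by exact_mod_cast hj2.1
            linarith
          · have a1 := abs_le.1 hj1.2
            have a2 := abs_le.1 hj2.2
            unfold sl at a1 a2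
            have b1 := hτ ht.1
            have b2 := hτ ht.2
            rw [abs_le]
            constructor
            · linarith [a1.1]
            · linarith [a2.2]
        have h1 := ENNReal.toReal_mono (setT_fin τ θ i) (measure_mono hsub)
        rw [Real.volume_Icc] at h1
        have h2 : tm u j2 - tm u j1 = ((j2 : ℝ) - j1) / 2 ^ u := by unfold tm; ring
        rw [h2, ENNReal.toReal_ofReal] at h1
        · exact h1
        · apply div_nonneg _ hN.le
          have : (j1 : ℝ) ≤ j2 := by exact_mod_cast h12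
          linarith
      have h3 : (nn τ u θ i : ℝ) ≤ (j2 : ℝ) - j1 + 1 := by
        have h4 : nn τ u θ i + j1 ≤ j2 + 1 := by omega
        have h5 : ((nn τ u θ i : ℝ)) + j1 ≤ j2 + 1 := by exact_mod_cast h4
        linarith
      rw [div_le_iff₀ hN] at hlen
      linarith
  · -- the length is at most one plus the number of points
    rcases Set.eq_empty_or_nonempty {t : ℝ | t ∈ Icc (0 : ℝ) 1 ∧
        |τ t - θ| ≤ (2 : ℝ) ^ (-(i : ℤ))} with he | hne
    · have h0 : elt τ θ i = 0 := by unfold elt; rw [he, measure_empty]; rfl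
      rw [h0, mul_zero]
      positivity
    · obtain ⟨T, hT⟩ : ∃ T, T = {t : ℝ | t ∈ Icc (0 : ℝ) 1 ∧
        |τ t - θ| ≤ (2 : ℝ) ^ (-(i : ℤ))} := ⟨_, rfl⟩
      rw [← hT] at hne
      have hTi : ∀ t ∈ T, t ∈ Icc (0 : ℝ) 1 ∧ |τ t - θ| ≤ (2 : ℝ) ^ (-(i : ℤ)) := by
        intro t ht; rw [hT] at ht; exact ht
      have hbb : BddBelow T := ⟨0, fun t ht => (hTi t ht).1.1⟩
      have hba : BddAbove T := ⟨1, fun t ht => (hTi t ht).1.2⟩
      obtain ⟨a, ha⟩ : ∃ a, a = sInf T := ⟨_, rfl⟩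
      obtain ⟨b, hb⟩ : ∃ b, b = sSup T := ⟨_, rfl⟩
      have ha0 : 0 ≤ a := by rw [ha]; exact le_csInf hne (fun t ht => (hTi t ht).1.1)
      have hb1 : b ≤ 1 := by rw [hb]; exact csSup_le hne (fun t ht => (hTi t ht).1.2)
      have hsub : T ⊆ Icc a b := fun t ht => by
        rw [ha, hb]; exact ⟨csInf_le hbb ht, le_csSup hba ht⟩
      have hab : a ≤ b := by
        obtain ⟨t, ht⟩ := hne
        exact (hsub ht).1.trans (hsub ht).2
      have hopen : ∀ t, a < t → t < b → |τ t - θ| ≤ (2 : ℝ) ^ (-(i : ℤ)) := by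
        intro t h1 h2
        rw [ha] at h1
        rw [hb] at h2
        obtain ⟨t1, ht1, h3⟩ := exists_lt_of_csInf_lt hne h1
        obtain ⟨t2, ht2, h4⟩ := exists_lt_of_lt_csSup hne h2
        have a1 := abs_le.1 (hTi t1 ht1).2
        have a2 := abs_le.1 (hTi t2 ht2).2
        have b1 := hτ h3.le
        have b2 := hτ h4.le
        rw [abs_le]
        constructor
        · linarith [a1.1]
        · linarith [a2.2]
      have hel : elt τ θ i ≤ b - a := by
        unfold elt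
        rw [← hT]
        have h1 := ENNReal.toReal_mono (by rw [Real.volume_Icc]; exact ENNReal.ofReal_ne_top)
          (measure_mono hsub : volume T ≤ volume (Icc a b))
        rwa [Real.volume_Icc, ENNReal.toReal_ofReal (by linarith)] at h1
      -- the integers between `N a - 1/2` and `N b - 1/2`
      obtain ⟨p, hp⟩ : ∃ p : ℕ, (p : ℤ) = ⌊2 ^ u * a - 1 / 2⌋ + 1 := by
        have h1 : (-1 : ℤ) ≤ ⌊2 ^ u * a - 1 / 2⌋ := by
          rw [Int.le_floor]
          have : 0 ≤ 2 ^ u * a := by positivity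
          push_cast
          linarith
        exact ⟨(⌊2 ^ u * a - 1 / 2⌋ + 1).toNat, Int.toNat_of_nonneg (by omega)⟩
      obtain ⟨q, hq⟩ : ∃ q : ℕ, q = (⌈2 ^ u * b - 1 / 2⌉).toNat := ⟨_, rfl⟩
      have hsubS : ((Finset.Ico p q : Finset ℕ) : Set ℕ) ⊆
          {j : ℕ | j < 2 ^ u ∧ |sl τ u j - θ| ≤ (2 : ℝ) ^ (-(i : ℤ))} := by
        intro j hj
        rw [Finset.coe_Ico] at hj
        have h1 : (⌊2 ^ u * a - 1 / 2⌋ : ℤ) < (j : ℤ) := by
          have := hj.1
          have h2 : (p : ℤ) ≤ j := by exact_mod_cast this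
          omega
        rw [Int.floor_lt] at h1
        push_cast at h1
        have h2 : (j : ℤ) < ⌈2 ^ u * b - 1 / 2⌉ := by
          have := hj.2
          rw [hq, Int.lt_toNat] at this
          exact this
        rw [Int.lt_ceil] at h2
        push_cast at h2
        have h3 : (j : ℝ) < 2 ^ u := by
          have : 2 ^ u * b ≤ 2 ^ u * 1 := mul_le_mul_of_nonneg_left hb1 hN.le
          linarith
        refine ⟨by exact_mod_cast h3, ?_⟩
        unfold sl
        apply hopen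
        · unfold tm
          rw [lt_div_iff₀ hN]
          linarith
        · unfold tm
          rw [div_lt_iff₀ hN]
          linarith
      have hcard : q - p ≤ nn τ u θ i := by
        have h1 := Set.ncard_le_ncard hsubS (setS_fin τ u θ i)
        rwa [Set.ncard_coe_finset, Nat.card_Ico] at h1
      have hq1 : 2 ^ u * b - 1 / 2 ≤ (q : ℝ) := by
        have h1 : ((⌈2 ^ u * b - 1 / 2⌉ : ℤ) : ℝ) ≤ ((q : ℤ) : ℝ) := by
          rw [hq]
          exact_mod_cast Int.self_le_toNat _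
        have h2 := Int.le_ceil (2 ^ u * b - 1 / 2)
        push_cast at h1
        linarith
      have hp1 : (p : ℝ) ≤ 2 ^ u * a + 1 / 2 := by
        have h1 : ((p : ℤ) : ℝ) = ((⌊2 ^ u * a - 1 / 2⌋ + 1 : ℤ) : ℝ) := by rw [hp]
        have h2 := Int.floor_le (2 ^ u * a - 1 / 2)
        push_cast at h1
        linarith
      have h4 : (q : ℝ) - p ≤ nn τ u θ i := by
        have h5 : q ≤ nn τ u θ i + p := by omega
        have h6 : (q : ℝ) ≤ nn τ u θ i + p := by exact_mod_cast h5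
        linarith
      have h7 : 2 ^ u * elt τ θ i ≤ 2 ^ u * (b - a) := mul_le_mul_of_nonneg_left hel hN.le
      linarith
  · unfold elt
    have h1 := ENNReal.toReal_mono (by rw [Real.volume_Icc]; exact ENNReal.ofReal_ne_top)
      (measure_mono (fun t ht => ht.1) : volume {t : ℝ | t ∈ Icc (0 : ℝ) 1 ∧
        |τ t - θ| ≤ (2 : ℝ) ^ (-(i : ℤ))} ≤ volume (Icc (0 : ℝ) 1))
    rwa [Real.volume_Icc, ENNReal.toReal_ofReal (by norm_num), sub_zero] at h1

end Pool.Agent.Helper91.EQ
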