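import Pool.Agent.Helper20.EQ.St1

set_option autoImplicit false

open MeasureTheory Set Filter Topology
open scoped ENNReal RealInnerProductSpace

namespace Pool.Agent.Helper91.EQ

open Pool.Agent.Helper20.RG Pool.Agent.Helper20.EQ

theorem geo (s x : ℝ) (hs : 0 < s) (hx : 0 < x) :
    ∑' u : ℕ, ENNReal.ofReal (if x ≤ (2 : ℝ) ^ u then (2 : ℝ) ^ (-(s * u)) else 0) ≤
      ENNReal.ofReal (1 / (1 - (2 : ℝ) ^ (-s)) * x ^ (-s)) := by
  obtain ⟨q, hq⟩ : ∃ q, q = (2 : ℝ) ^ (-s) := ⟨_, rfl⟩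
  have hq0 : 0 < q := by rw [hq]; positivity
  have hq1 : q < 1 := by
    rw [hq]; exact Real.rpow_lt_one_of_one_lt_of_neg (by norm_num) (by linarith)
  have hqu : ∀ u : ℕ, (2 : ℝ) ^ (-(s * u)) = q ^ u := by
    intro u
    rw [hq, ← Real.rpow_natCast, ← Real.rpow_mul (by norm_num)]
    congr 1; ring
  have hex : ∃ u : ℕ, x ≤ (2 : ℝ) ^ u := by
    obtain ⟨u, hu⟩ := pow_unbounded_of_one_lt x (by norm_num : (1 : ℝ) < 2)
    exact ⟨u, hu.le⟩
  classical
  obtain ⟨a, ha⟩ : ∃ a, a = Nat.find hex := ⟨_, rfl⟩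
  have ha1 : x ≤ (2 : ℝ) ^ a := by rw [ha]; exact Nat.find_spec hex
  have ha2 : ∀ u : ℕ, x ≤ (2 : ℝ) ^ u → a ≤ u := by
    intro u hu; rw [ha]; exact Nat.find_min' hex hu
  have hqa : q ^ a ≤ x ^ (-s) := by
    rw [← hqu, Real.rpow_neg (by norm_num), Real.rpow_neg hx.le]
    apply inv_anti₀ (by positivity)
    calc x ^ s ≤ ((2 : ℝ) ^ a) ^ s := Real.rpow_le_rpow hx.le ha1 hs.le
      _ = (2 : ℝ) ^ (s * a) := by
        rw [← Real.rpow_natCast, ← Real.rpow_mul (by norm_num), mul_comm]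
  apply ENNReal.tsum_le_of_sum_range_le
  intro n
  rw [← ENNReal.ofReal_sum_of_nonneg]
  · apply ENNReal.ofReal_le_ofReal
    rw [← hq]
    calc ∑ u ∈ Finset.range n, (if x ≤ (2 : ℝ) ^ u then (2 : ℝ) ^ (-(s * u)) else 0)
        = ∑ u ∈ (Finset.range n).filter (fun u : ℕ => x ≤ (2 : ℝ) ^ u), q ^ u := by
          rw [Finset.sum_filter]
          apply Finset.sum_congr rfl
          intro u _
          rw [hqu]
      _ ≤ ∑ u ∈ Finset.Ico a n, q ^ u := by
          apply Finset.sum_le_sum_of_subset_of_nonneg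
          · intro u hu
            rw [Finset.mem_filter, Finset.mem_range] at hu
            rw [Finset.mem_Ico]
            exact ⟨ha2 u hu.2, hu.1⟩
          · intro u _ _
            positivity
      _ ≤ q ^ a / (1 - q) := geom_sum_Ico_le_of_lt_one hq0.le hq1
      _ = 1 / (1 - q) * q ^ a := by ring
      _ ≤ 1 / (1 - q) * x ^ (-s) := by
          apply mul_le_mul_of_nonneg_left hqa
          apply div_nonneg (by norm_num)
          linarith
  · intro u _
    split_ifs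
    · positivity
    · exact le_rfl

theorem hSS : StSS := by
  intro p hp
  obtain ⟨C1, hC1⟩ : ∃ C1, C1 = 1 / (1 - (2 : ℝ) ^ (-p)) := ⟨_, rfl⟩
  obtain ⟨C2, hC2⟩ : ∃ C2, C2 = 1 / (1 - (2 : ℝ) ^ (-(p - 1))) := ⟨_, rfl⟩
  have h1 : (2 : ℝ) ^ (-p) < 1 :=
    Real.rpow_lt_one_of_one_lt_of_neg (by norm_num) (by linarith)
  have h2 : (2 : ℝ) ^ (-(p - 1)) < 1 :=
    Real.rpow_lt_one_of_one_lt_of_neg (by norm_num) (by linarith)
  have hC1p : 0 < C1 := by rw [hC1]; apply div_pos (by norm_num); linarith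
  have hC2p : 0 < C2 := by rw [hC2]; apply div_pos (by norm_num); linarith
  refine ⟨C1 + C2, by linarith, ?_⟩
  intro L A y hL hA hy
  have hA0 : 0 ≤ A := by simpa using hA 0
  have hcond : ∀ (l : ℝ) (u : ℕ), 0 < l → (y ≤ (2 : ℝ) ^ u * l ↔ y / l ≤ (2 : ℝ) ^ u) := by
    intro l u hl
    rw [div_le_iff₀ hl]
  -- one class, first sum
  have hA1 : ∀ i : ℕ, ∑' u : ℕ, ENNReal.ofReal (if y ≤ (2 : ℝ) ^ u * L (i + 1) then
      (2 : ℝ) ^ (-(p * u)) else 0) ≤ ENNReal.ofReal (C1 * y ^ (-p) * L (i + 1) ^ p) := by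
    intro i
    rcases eq_or_lt_of_le (hL (i + 1)).1 with h0 | h0
    · have h3 : ∀ u : ℕ, ENNReal.ofReal (if y ≤ (2 : ℝ) ^ u * L (i + 1) then
          (2 : ℝ) ^ (-(p * u)) else 0) = 0 := by
        intro u
        rw [← h0, mul_zero, if_neg (not_le.2 hy), ENNReal.ofReal_zero]
      simp only [h3, tsum_zero]
      exact zero_le
    · have h3 : ∀ u : ℕ, ENNReal.ofReal (if y ≤ (2 : ℝ) ^ u * L (i + 1) then
          (2 : ℝ) ^ (-(p * u)) else 0) = ENNReal.ofReal (if y / L (i + 1) ≤ (2 : ℝ) ^ u then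
          (2 : ℝ) ^ (-(p * u)) else 0) := by
        intro u
        simp only [hcond _ u h0]
      simp only [h3]
      refine (geo p (y / L (i + 1)) (by linarith) (by positivity)).trans ?_
      apply ENNReal.ofReal_le_ofReal
      rw [← hC1]
      apply le_of_eq
      rw [Real.div_rpow hy.le h0.le, Real.rpow_neg h0.le, div_inv_eq_mul]
      ring
  have hB1 : ∀ i : ℕ, ∑' u : ℕ, ENNReal.ofReal (if y ≤ (2 : ℝ) ^ u * L (i + 1) then
      (2 : ℝ) ^ ((1 - p) * u) * L (i + 1) else 0) ≤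
        ENNReal.ofReal (C2 * y ^ (1 - p) * L (i + 1) ^ p) := by
    intro i
    rcases eq_or_lt_of_le (hL (i + 1)).1 with h0 | h0
    · have h3 : ∀ u : ℕ, ENNReal.ofReal (if y ≤ (2 : ℝ) ^ u * L (i + 1) then
          (2 : ℝ) ^ ((1 - p) * u) * L (i + 1) else 0) = 0 := by
        intro u
        rw [← h0, mul_zero, if_neg (not_le.2 hy), ENNReal.ofReal_zero]
      simp only [h3, tsum_zero]
      exact zero_le
    · have h3 : ∀ u : ℕ, ENNReal.ofReal (if y ≤ (2 : ℝ) ^ u * L (i + 1) then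
          (2 : ℝ) ^ ((1 - p) * u) * L (i + 1) else 0) =
          ENNReal.ofReal (L (i + 1)) * ENNReal.ofReal (if y / L (i + 1) ≤ (2 : ℝ) ^ u then
          (2 : ℝ) ^ (-((p - 1) * u)) else 0) := by
        intro u
        rw [← ENNReal.ofReal_mul h0.le]
        congr 1
        simp only [hcond _ u h0]
        split_ifs with h4
        · rw [mul_comm, show (1 - p) * (u : ℝ) = -((p - 1) * u) by ring]
        · rw [mul_zero]
      simp only [h3]
      rw [ENNReal.tsum_mul_left]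
      refine (mul_le_mul_right (geo (p - 1) (y / L (i + 1)) (by linarith)
        (by positivity)) _).trans ?_
      rw [← ENNReal.ofReal_mul h0.le]
      apply ENNReal.ofReal_le_ofReal
      rw [← hC2]
      apply le_of_eq
      rw [Real.div_rpow hy.le h0.le, Real.rpow_neg h0.le, div_inv_eq_mul,
        show -(p - 1) = 1 - p by ring, show (p : ℝ) = 1 + (p - 1) by ring, Real.rpow_add h0,
        Real.rpow_one]
      ring_nf
  have hsum : ∀ D : ℝ, 0 ≤ D → ∑' i : ℕ, ENNReal.ofReal (D * L (i + 1) ^ p) ≤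
      ENNReal.ofReal (D * A) := by
    intro D hD
    apply ENNReal.tsum_le_of_sum_range_le
    intro n
    rw [← ENNReal.ofReal_sum_of_nonneg]
    · apply ENNReal.ofReal_le_ofReal
      rw [← Finset.mul_sum]
      exact mul_le_mul_of_nonneg_left (hA n) hD
    · intro i _
      exact mul_nonneg hD (Real.rpow_nonneg (hL (i + 1)).1 _)
  have hyp : 0 < y ^ (-p) := Real.rpow_pos_of_pos hy _
  have hyq : 0 < y ^ (1 - p) := Real.rpow_pos_of_pos hy _
  refine ⟨?_, ?_⟩
  · rw [ENNReal.tsum_comm]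
    refine (ENNReal.tsum_le_tsum hA1).trans ?_
    refine (hsum (C1 * y ^ (-p)) (by positivity)).trans ?_
    apply ENNReal.ofReal_le_ofReal
    calc C1 * y ^ (-p) * A = C1 * (A * y ^ (-p)) := by ring
      _ ≤ (C1 + C2) * (A * y ^ (-p)) := by
          apply mul_le_mul_of_nonneg_right (by linarith) (by positivity)
      _ = _ := by ring
  · rw [ENNReal.tsum_comm]
    refine (ENNReal.tsum_le_tsum hB1).trans ?_
    refine (hsum (C2 * y ^ (1 - p)) (by positivity)).trans ?_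
    apply ENNReal.ofReal_le_ofReal
    calc C2 * y ^ (1 - p) * A = C2 * (A * y ^ (1 - p)) := by ring
      _ ≤ (C1 + C2) * (A * y ^ (1 - p)) := by
          apply mul_le_mul_of_nonneg_right (by linarith) (by positivity)
      _ = _ := by ring

end Pool.Agent.Helper91.EQ
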